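import Pool.Agent.H48.RN.Stmts3

/-! # RN, module FSM -/

set_option autoImplicit false

namespace Pool.RN

open Polynomial

open Classical in
theorem FSM_inner {F : Type} [Field F] [Fintype F] {n : ℕ} {b M c : F[X]} (hM : M.Monic)
    (hMd : M.natDegree = 6 * n) (hbM : b ∣ M) (hMb : M ∣ b) (hc : c.natDegree ≤ 12 * n)
    (G : F[X] → ℂ) :
    ∑ a₆ ∈ Pol F (6 * n), G (b * a₆ + c) =
      ∑ f ∈ (Pol F (12 * n)).filter (fun f => AdjoinRoot.mk M f = AdjoinRoot.mk M c), G f := by
  have hb0 : b ≠ 0 := by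
    rintro rfl
    exact hM.ne_zero (zero_dvd_iff.1 hbM)
  have hbd : b.natDegree = 6 * n := by
    rw [← hMd]
    exact le_antisymm (natDegree_le_of_dvd hbM hM.ne_zero) (natDegree_le_of_dvd hMb hb0)
  refine Finset.sum_nbij (fun a₆ => b * a₆ + c) ?_ ?_ ?_ ?_
  · intro a ha
    rw [mem_Pol] at ha
    rw [Finset.mem_filter, mem_Pol]
    constructor
    · apply natDegree_add_le_of_degree_le _ hc
      have := natDegree_mul_le (p := b) (q := a)
      omega
    · rw [map_add, map_mul, AdjoinRoot.mk_eq_zero.2 hMb, zero_mul, zero_add]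
  · intro a _ a' _ h
    have h1 : b * a = b * a' := by
      have : b * a + c = b * a' + c := h
      exact add_right_cancel this
    exact mul_left_cancel₀ hb0 h1
  · intro f hf
    rw [Finset.mem_coe, Finset.mem_filter, mem_Pol] at hf
    obtain ⟨x, hx⟩ := hbM.trans (AdjoinRoot.mk_eq_mk.1 hf.2)
    refine ⟨x, ?_, ?_⟩
    · rw [Finset.mem_coe, mem_Pol]
      by_cases hx0 : x = 0
      · simp [hx0]
      · have h1 := natDegree_mul hb0 hx0
        rw [← hx, hbd] at h1
        have h2 : (f - c).natDegree ≤ 12 * n := by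
          have := natDegree_sub_le f c
          omega
        omega
    · show b * x + c = f
      rw [← hx, sub_add_cancel]
  · intro a _
    rfl

open Classical in
theorem FSM_fib {F : Type} [Field F] [Fintype F] (hCRD : S_CRD F) {n : ℕ} {e : F[X]}
    (he : e ≠ 0) (hed : e.natDegree ≤ 4 * n) {T : Finset F[X]} (hT : T ⊆ Pol F (4 * n))
    {A : Type} (g : F[X] → A) (hg : ∀ a ∈ T, ∀ a' ∈ T, g a = g a' → e ∣ a - a') (α : A) :
    (T.filter fun a => g a = α).card ≤ Fintype.card F ^ (4 * n - e.natDegree + 1) := by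
  rcases (T.filter fun a => g a = α).eq_empty_or_nonempty with h | ⟨a0, ha0⟩
  · rw [h]
    simp
  · rw [Finset.mem_filter] at ha0
    rw [← hCRD.2 (4 * n - e.natDegree)]
    have hdiv : ∀ a ∈ T.filter (fun a => g a = α), e * ((a - a0) / e) = a - a0 := by
      intro a ha
      rw [Finset.mem_filter] at ha
      exact EuclideanDomain.mul_div_cancel' he (hg a ha.1 a0 ha0.1 (ha.2.trans ha0.2.symm))
    apply Finset.card_le_card_of_injOn (fun a => (a - a0) / e)
    · intro a ha
      rw [Finset.mem_coe, mem_Pol]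
      change ((a - a0) / e).natDegree ≤ 4 * n - e.natDegree
      have h1 := hdiv a ha
      have ha' := (Finset.mem_filter.1 ha).1
      by_cases hx0 : (a - a0) / e = 0
      · rw [hx0]; simp
      · have h2 := natDegree_mul he hx0
        rw [h1] at h2
        have h3 := natDegree_sub_le a a0
        have h4 := mem_Pol.1 (hT ha')
        have h5 := mem_Pol.1 (hT ha0.1)
        omega
    · intro a ha a' ha' h
      have h1 := hdiv a ha
      have h2 := hdiv a' ha'
      have h3 : a - a0 = a' - a0 := by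
        rw [← h1, ← h2]
        exact congrArg (e * ·) h
      exact sub_left_injective h3

theorem s_FSM (F : Type) [Field F] [Fintype F] (hANB : S_ANB F) (hCRD : S_CRD F) : S_FSM F := by
  classical
  intro ε hε
  obtain ⟨C, hC, hA⟩ := hANB (ε / 10) (by positivity)
  have hq1 : (1 : ℝ) < Fintype.card F := by exact_mod_cast Fintype.one_lt_card
  have hq0 : (0 : ℝ) < Fintype.card F := by linarith
  refine ⟨Fintype.card F * Real.sqrt C, by positivity, ?_⟩
  intro n e b M cl T χ₀ l w hn hM hMd hbM hMb he hed hT hcl h1 h2 hr hl hw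
  set q : ℝ := (Fintype.card F : ℝ) with hq
  set W : ℕ → ℂ := fun i => if i = 12 * n then 1 else w with hW
  set S : AdjoinRoot M → ℂ := fun α =>
    ∑ f ∈ (Pol F (12 * n)).filter (fun f => AdjoinRoot.mk M f = α),
      W f.natDegree * wf (cc χ₀ l) f with hS
  have hinner : ∀ a ∈ T, ∑ a₆ ∈ Pol F (6 * n),
      (if (b * a₆ + cl a).natDegree = 12 * n then 1 else w) * wf (cc χ₀ l) (b * a₆ + cl a) =
      S (AdjoinRoot.mk M (cl a)) := by
    intro a ha
    exact FSM_inner hM hMd hbM hMb (hcl a ha).1 fun f => W f.natDegree * wf (cc χ₀ l) f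
  rw [Finset.sum_congr rfl fun a ha => by rw [hinner a ha]]
  set X : ℝ := ∑ a ∈ T, ‖S (AdjoinRoot.mk M (cl a))‖ with hX
  have hX0 : 0 ≤ X := Finset.sum_nonneg fun _ _ => norm_nonneg _
  have hTc : (T.card : ℝ) ≤ q ^ (4 * n + 1) := by
    have := (Finset.card_le_card hT).trans (hCRD.2 (4 * n)).le
    rw [hq]
    exact_mod_cast this
  have hunit : ∀ α ∈ T.image (fun a => AdjoinRoot.mk M (cl a)), IsUnit α := by
    intro α hα
    obtain ⟨a, ha, rfl⟩ := Finset.mem_image.1 hα
    obtain ⟨u, v, huv⟩ := (hcl a ha).2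
    refine IsUnit.of_mul_eq_one (AdjoinRoot.mk M u) ?_
    have := congrArg (AdjoinRoot.mk M) huv
    rw [map_add, map_mul, map_mul, AdjoinRoot.mk_self, mul_zero, add_zero, map_one] at this
    rw [mul_comm]
    exact this
  have hAn := hA M hM (by omega) χ₀ l hr hl (12 * n) W (by
    intro i
    rw [hW]
    dsimp only
    split_ifs
    · simp
    · rcases hw with rfl | rfl <;> simp) _ hunit
  have hfib : ∀ α, (((T.filter fun a => AdjoinRoot.mk M (cl a) = α).card : ℕ) : ℝ) ≤
      q ^ (4 * n - e.natDegree + 1) := by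
    intro α
    have := FSM_fib hCRD he hed hT (fun a => AdjoinRoot.mk M (cl a))
      (fun a _ a' _ h => h2 a a' (AdjoinRoot.mk_eq_mk.1 h)) α
    rw [hq]
    exact_mod_cast this
  have hsq : ∑ a ∈ T, ‖S (AdjoinRoot.mk M (cl a))‖ ^ 2 ≤
      q ^ (4 * n - e.natDegree + 1) *
        (C * q ^ ((1 + ε / 10) * ((12 * n : ℕ) : ℝ) + ε / 10 * (M.natDegree : ℝ))) := by
    rw [Finset.sum_comp (fun α => ‖S α‖ ^ 2) (fun a => AdjoinRoot.mk M (cl a))]
    calc _ ≤ ∑ α ∈ T.image (fun a => AdjoinRoot.mk M (cl a)),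
          q ^ (4 * n - e.natDegree + 1) * ‖S α‖ ^ 2 := by
          refine Finset.sum_le_sum fun α _ => ?_
          rw [nsmul_eq_mul]
          exact mul_le_mul_of_nonneg_right (hfib α) (by positivity)
      _ = q ^ (4 * n - e.natDegree + 1) *
          ∑ α ∈ T.image (fun a => AdjoinRoot.mk M (cl a)), ‖S α‖ ^ 2 := by
          rw [Finset.mul_sum]
      _ ≤ _ := mul_le_mul_of_nonneg_left hAn (by positivity)
  have hCS : X ^ 2 ≤ T.card * ∑ a ∈ T, ‖S (AdjoinRoot.mk M (cl a))‖ ^ 2 :=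
    sq_sum_le_card_mul_sum_sq
  have hX2 : X ^ 2 ≤ q ^ (4 * n + 1) * (q ^ (4 * n - e.natDegree + 1) *
        (C * q ^ ((1 + ε / 10) * ((12 * n : ℕ) : ℝ) + ε / 10 * (M.natDegree : ℝ)))) :=
    hCS.trans (mul_le_mul hTc hsq (Finset.sum_nonneg fun _ _ => by positivity) (by positivity))
  have hpos : 0 ≤ q * Real.sqrt C * q ^ ((10 + ε) * n - e.natDegree / 2) := by positivity
  refine (pow_le_pow_iff_left₀ hX0 hpos two_ne_zero).1 ?_
  refine hX2.trans ?_
  have e1 : (q * Real.sqrt C * q ^ ((10 + ε) * (n : ℝ) - (e.natDegree : ℝ) / 2)) ^ 2 =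
      C * q ^ (2 + 2 * ((10 + ε) * (n : ℝ) - (e.natDegree : ℝ) / 2)) := by
    have e3 : (q ^ ((10 + ε) * (n : ℝ) - (e.natDegree : ℝ) / 2)) ^ 2 =
        q ^ (2 * ((10 + ε) * (n : ℝ) - (e.natDegree : ℝ) / 2)) := by
      rw [← Real.rpow_natCast (q ^ ((10 + ε) * (n : ℝ) - (e.natDegree : ℝ) / 2)) 2,
        ← Real.rpow_mul hq0.le]
      congr 1
      push_cast
      ring
    rw [mul_pow, mul_pow, Real.sq_sqrt hC.le, e3, Real.rpow_add hq0, Real.rpow_two]
    ring
  have e2 : q ^ (4 * n + 1) * (q ^ (4 * n - e.natDegree + 1) *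
        (C * q ^ ((1 + ε / 10) * ((12 * n : ℕ) : ℝ) + ε / 10 * (M.natDegree : ℝ)))) =
      C * q ^ ((4 * (n : ℝ) + 1) + ((4 * (n : ℝ) - e.natDegree + 1) +
        ((1 + ε / 10) * (12 * n) + ε / 10 * (6 * n)))) := by
    have a1 : q ^ (4 * n + 1) = q ^ (4 * (n : ℝ) + 1) := by
      rw [← Real.rpow_natCast]
      push_cast
      rfl
    have a2 : q ^ (4 * n - e.natDegree + 1) = q ^ (4 * (n : ℝ) - e.natDegree + 1) := by
      rw [← Real.rpow_natCast]
      push_cast [Nat.cast_sub hed]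
      rfl
    have a3 : (1 + ε / 10) * ((12 * n : ℕ) : ℝ) + ε / 10 * (M.natDegree : ℝ) =
        (1 + ε / 10) * (12 * n) + ε / 10 * (6 * n) := by
      rw [hMd]
      push_cast
      ring
    have a4 : ∀ x y z : ℝ, q ^ x * (q ^ y * (C * q ^ z)) = C * q ^ (x + (y + z)) := by
      intro x y z
      rw [Real.rpow_add hq0, Real.rpow_add hq0]
      ring
    rw [a1, a2, a3, a4]
  rw [e1, e2]
  apply mul_le_mul_of_nonneg_left _ hC.le
  apply Real.rpow_le_rpow_of_exponent_le hq1.le
  have hn' : (0 : ℝ) ≤ n := Nat.cast_nonneg n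
  nlinarith [mul_nonneg hε.le hn']

end Pool.RN
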