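import Pool.Agent.H48.RN.Stmts3

/-! # RN, module SQF -/

set_option autoImplicit false
set_option linter.unusedSectionVars false

namespace Pool.RN

open Polynomial

/-- the local factors -/
noncomputable def SQF_g (x : ℝ) (v : ℕ) : ℝ := if v = 0 then 1 else ((v - 1 : ℕ) : ℝ) * x ^ v

theorem SQF_g_nonneg {x : ℝ} (hx : 0 ≤ x) (v : ℕ) : 0 ≤ SQF_g x v := by
  unfold SQF_g
  split_ifs
  · exact zero_le_one
  · positivity

theorem SQF_local {x : ℝ} (hx : 0 ≤ x) (hx2 : x ^ 2 ≤ 1 / 2) (j : ℕ) :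
    ∑ v ∈ Finset.range (j + 1), SQF_g x v ≤ 1 + 12 * x ^ 2 := by
  have hx1 : x < 0.7072 := by nlinarith
  rw [Finset.sum_range_succ']
  have h1 : ∀ i, SQF_g x (i + 1) = x * ((i : ℝ) * x ^ i) := by
    intro i
    simp only [SQF_g, Nat.succ_ne_zero, if_false, Nat.add_sub_cancel, pow_succ]
    ring
  simp only [h1]
  rw [← Finset.mul_sum]
  have hn : ‖x‖ < 1 := by rw [Real.norm_eq_abs, abs_of_nonneg hx]; linarith
  have hs := hasSum_coe_mul_geometric_of_norm_lt_one hn
  have h2 : ∑ i ∈ Finset.range j, (i : ℝ) * x ^ i ≤ x / (1 - x) ^ 2 := by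
    rw [← hs.tsum_eq]
    exact hs.summable.sum_le_tsum _ fun i _ => by positivity
  have h3 : x / (1 - x) ^ 2 ≤ 12 * x := by
    rw [div_le_iff₀ (by nlinarith)]
    have : (1 : ℝ) ≤ 12 * (1 - x) ^ 2 := by nlinarith
    nlinarith
  have h4 : SQF_g x 0 = 1 := by simp [SQF_g]
  rw [h4]
  nlinarith [mul_le_mul_of_nonneg_left (h2.trans h3) hx]

section

variable {F : Type} [Field F] [Fintype F]

open Classical in
/-- the monic irreducible polynomials of degree at most `j` -/
noncomputable def SQF_S (F : Type) [Field F] [Fintype F] (j : ℕ) : Finset F[X] :=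
  (Finset.Icc 1 j).biUnion (Irr F)

theorem SQF_prod {e : F[X]} (he : e.Monic) :
    e = ∏ P ∈ pf e, P ^ vv P e := by
  classical
  have h1 := UniqueFactorizationMonoid.prod_normalizedFactors_eq he.ne_zero
  rw [he.normalize_eq_self] at h1
  conv_lhs => rw [← h1]
  rw [Finset.prod_multiset_count]
  rfl

theorem SQF_prod' {e : F[X]} (he : e.Monic) {S : Finset F[X]} (hS : pf e ⊆ S) :
    e = ∏ P ∈ S, P ^ vv P e := by
  classical
  conv_lhs => rw [SQF_prod he]
  apply Finset.prod_subset hS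
  intro P _ hP
  have : vv P e = 0 := by
    unfold vv
    rw [Multiset.count_eq_zero]
    intro h
    exact hP (Multiset.mem_toFinset.2 h)
  rw [this, pow_zero]

theorem SQF_pf_sub {e : F[X]} {j : ℕ} (he : e.Monic) (hj : e.natDegree ≤ j) :
    pf e ⊆ SQF_S F j := by
  classical
  intro P hP
  rw [mem_pf he.ne_zero] at hP
  unfold SQF_S
  rw [Finset.mem_biUnion]
  refine ⟨P.natDegree, ?_, ?_⟩
  · rw [Finset.mem_Icc]
    exact ⟨hP.2.1.natDegree_pos, (natDegree_le_of_dvd hP.2.2 he.ne_zero).trans hj⟩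
  · rw [mem_Irr]
    exact ⟨⟨hP.1, rfl⟩, hP.2.1⟩

theorem SQF_vv_lt {e P : F[X]} {j : ℕ} (he : e.Monic) (hj : e.natDegree ≤ j)
    (hP : P ∈ SQF_S F j) : vv P e < j + 1 := by
  classical
  by_cases h : P ∈ pf e
  · have h1 : P ^ vv P e ∣ e := by
      conv_rhs => rw [SQF_prod he]
      exact Finset.dvd_prod_of_mem _ h
    have h2 := natDegree_le_of_dvd h1 he.ne_zero
    rw [mem_pf he.ne_zero] at h
    rw [natDegree_pow] at h2
    have h3 := h.2.1.natDegree_pos
    have : vv P e ≤ vv P e * P.natDegree := Nat.le_mul_of_pos_right _ h3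
    omega
  · have : vv P e = 0 := by
      unfold vv
      rw [Multiset.count_eq_zero]
      intro h'
      exact h (Multiset.mem_toFinset.2 h')
    omega

theorem SQF_euler {s : ℝ} (hs : 0 ≤ s) (j : ℕ) :
    ∑ e ∈ Mon F j, (kk e : ℝ) * s ^ j ≤
      ∏ P ∈ SQF_S F j, ∑ v ∈ Finset.range (j + 1), SQF_g (s ^ P.natDegree) v := by
  classical
  rw [Finset.prod_sum]
  set φ : F[X] → (∀ P ∈ SQF_S F j, ℕ) := fun e P _ => vv P e with hφ
  have hinj : Set.InjOn φ (Mon F j) := by
    intro e he e' he' h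
    rw [Finset.mem_coe, mem_Mon] at he he'
    rw [SQF_prod' he.1 (SQF_pf_sub he.1 he.2.le), SQF_prod' he'.1 (SQF_pf_sub he'.1 he'.2.le)]
    refine Finset.prod_congr rfl fun P hP => ?_
    have : vv P e = vv P e' := congrFun (congrFun h P) hP
    rw [this]
  have hmem : ∀ e ∈ Mon F j, φ e ∈ (SQF_S F j).pi fun _ => Finset.range (j + 1) := by
    intro e he
    rw [mem_Mon] at he
    rw [Finset.mem_pi]
    intro P hP
    rw [Finset.mem_range]
    exact SQF_vv_lt he.1 he.2.le hP
  have hval : ∀ e ∈ Mon F j, (kk e : ℝ) * s ^ j =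
      ∏ P ∈ (SQF_S F j).attach, SQF_g (s ^ (P : F[X]).natDegree) (φ e P P.2) := by
    intro e he
    rw [mem_Mon] at he
    rw [Finset.prod_attach (SQF_S F j) fun P => SQF_g (s ^ P.natDegree) (vv P e)]
    have hsub := SQF_pf_sub he.1 he.2.le
    rw [← Finset.prod_subset hsub (f := fun P => SQF_g (s ^ P.natDegree) (vv P e)) (by
      intro P _ hP
      have : vv P e = 0 := by
        unfold vv
        rw [Multiset.count_eq_zero]
        intro h
        exact hP (Multiset.mem_toFinset.2 h)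
      rw [this]
      simp [SQF_g])]
    have h1 : ∀ P ∈ pf e, SQF_g (s ^ P.natDegree) (vv P e) =
        ((vv P e - 1 : ℕ) : ℝ) * s ^ (vv P e * P.natDegree) := by
      intro P hP
      have : vv P e ≠ 0 := by
        unfold vv
        rw [Multiset.count_ne_zero]
        exact Multiset.mem_toFinset.1 hP
      simp only [SQF_g, this, if_false]
      rw [← pow_mul, mul_comm P.natDegree]
    rw [Finset.prod_congr rfl h1, Finset.prod_mul_distrib, Finset.prod_pow_eq_pow_sum]
    have h2 : ∑ P ∈ pf e, vv P e * P.natDegree = j := by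
      have h3 := congrArg natDegree (SQF_prod he.1)
      rw [natDegree_prod_of_monic _ _ fun P hP => (((mem_pf he.1.ne_zero).1 hP).1).pow _] at h3
      simp only [natDegree_pow] at h3
      rw [← h3, he.2]
    rw [h2]
    unfold kk
    push_cast
    rfl
  rw [Finset.sum_congr rfl hval, ← Finset.sum_image (f := fun p : (∀ P ∈ SQF_S F j, ℕ) =>
    ∏ P ∈ (SQF_S F j).attach, SQF_g (s ^ (P : F[X]).natDegree) (p P P.2)) hinj]
  apply Finset.sum_le_sum_of_subset_of_nonneg
  · intro p hp
    obtain ⟨e, he, rfl⟩ := Finset.mem_image.1 hp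
    exact hmem e he
  · intro p _ _
    exact Finset.prod_nonneg fun P _ => SQF_g_nonneg (pow_nonneg hs _) _

end

theorem s_SQF (F : Type) [Field F] [Fintype F] (hPRC : S_PRC F) : S_SQF F := by
  classical
  refine ⟨24, fun j => ?_⟩
  have hq2 : (2 : ℝ) ≤ Fintype.card F := by exact_mod_cast Fintype.one_lt_card
  set q : ℝ := ((Fintype.card F : ℕ) : ℝ) with hq
  have hq0 : 0 < q := by linarith
  set s : ℝ := (Real.sqrt q)⁻¹ with hs
  have hsq : 0 < Real.sqrt q := Real.sqrt_pos.2 hq0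
  have hs0 : 0 < s := by positivity
  have hs2 : s ^ 2 = q⁻¹ := by rw [hs, inv_pow, Real.sq_sqrt hq0.le]
  have h1 := SQF_euler (F := F) hs0.le j
  have h2 : ∏ P ∈ SQF_S F j, ∑ v ∈ Finset.range (j + 1), SQF_g (s ^ P.natDegree) v ≤
      ∏ P ∈ SQF_S F j, Real.exp (12 * (q⁻¹) ^ P.natDegree) := by
    apply Finset.prod_le_prod
    · intro P _
      exact Finset.sum_nonneg fun v _ => SQF_g_nonneg (by positivity) _
    · intro P hP
      unfold SQF_S at hP
      rw [Finset.mem_biUnion] at hP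
      obtain ⟨d, hd, hP⟩ := hP
      rw [Finset.mem_Icc] at hd
      rw [mem_Irr] at hP
      have e1 : (s ^ P.natDegree) ^ 2 = (q⁻¹) ^ P.natDegree := by
        rw [← pow_mul, mul_comm, pow_mul, hs2]
      have e2 : (q⁻¹) ^ P.natDegree ≤ 1 / 2 := by
        have h3 : q⁻¹ ≤ 1 / 2 := by
          rw [inv_le_comm₀ hq0 (by norm_num)]
          linarith
        calc (q⁻¹) ^ P.natDegree ≤ (q⁻¹) ^ 1 :=
              pow_le_pow_of_le_one (by positivity) (by linarith) (by omega)
          _ ≤ 1 / 2 := by rw [pow_one]; exact h3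
      refine (SQF_local (by positivity) (by rw [e1]; exact e2) j).trans ?_
      rw [e1]
      have := Real.add_one_le_exp (12 * (q⁻¹) ^ P.natDegree)
      linarith
  rw [← Real.exp_sum] at h2
  have h3 : ∑ P ∈ SQF_S F j, 12 * (q⁻¹) ^ P.natDegree ≤ 12 * ∑ d ∈ Finset.Icc 1 j, (1 : ℝ) / d := by
    rw [← Finset.mul_sum]
    apply mul_le_mul_of_nonneg_left _ (by norm_num)
    unfold SQF_S
    rw [Finset.sum_biUnion (by
      intro d _ d' _ hne
      rw [Function.onFun, Finset.disjoint_left]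
      intro P hP hP'
      exact hne ((mem_Irr.1 hP).1.2.symm.trans (mem_Irr.1 hP').1.2))]
    apply Finset.sum_le_sum
    intro d hd
    rw [Finset.mem_Icc] at hd
    have e1 : ∑ P ∈ Irr F d, (q⁻¹) ^ P.natDegree = (Irr F d).card * (q⁻¹) ^ d := by
      rw [Finset.sum_congr rfl fun P hP => by rw [(mem_Irr.1 hP).1.2], Finset.sum_const,
        nsmul_eq_mul]
    rw [e1]
    have e2 : d * (Irr F d).card ≤ Fintype.card F ^ d := by
      rw [← hPRC d hd.1]
      exact Finset.single_le_sum (f := fun d => d * (Irr F d).card) (fun _ _ => Nat.zero_le _)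
        (Nat.mem_divisors_self d (by omega))
    have e3 : (d : ℝ) * (Irr F d).card ≤ q ^ d := by
      rw [hq]
      exact_mod_cast e2
    have hd0 : (0 : ℝ) < d := by exact_mod_cast hd.1
    rw [inv_pow, ← div_eq_mul_inv, div_le_div_iff₀ (by positivity) hd0]
    linarith
  have h4 : ∑ d ∈ Finset.Icc 1 j, (1 : ℝ) / d ≤ 2 * Real.log (j + 1) := by
    rcases Nat.eq_zero_or_pos j with rfl | hj
    · simp
    · have e1 : ∑ d ∈ Finset.Icc 1 j, (1 : ℝ) / d ≤ 1 + Real.log j := by
        have := harmonic_le_one_add_log j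
        rw [harmonic_eq_sum_Icc] at this
        push_cast at this
        simpa [one_div] using this
      have hj1 : (1 : ℝ) ≤ j := by exact_mod_cast hj
      have e2 : 1 + Real.log j ≤ 2 * Real.log (j + 1) := by
        have e3 : Real.exp 1 * j ≤ (j + 1) ^ 2 := by
          have := Real.exp_one_lt_d9
          nlinarith [sq_nonneg ((j : ℝ) - 1)]
        have e4 := Real.log_le_log (by positivity) e3
        rw [Real.log_mul (by positivity) (by positivity), Real.log_exp, Real.log_pow] at e4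
        push_cast at e4
        linarith
      linarith
  have h5 : ∑ e ∈ Mon F j, (kk e : ℝ) * s ^ j ≤ ((j : ℝ) + 1) ^ 24 := by
    refine h1.trans (h2.trans ?_)
    calc Real.exp (∑ P ∈ SQF_S F j, 12 * (q⁻¹) ^ P.natDegree)
        ≤ Real.exp (24 * Real.log (j + 1)) := Real.exp_le_exp.2 (by linarith)
      _ = ((j : ℝ) + 1) ^ 24 := by
        rw [show (24 : ℝ) * Real.log (j + 1) = ((24 : ℕ) : ℝ) * Real.log (j + 1) by norm_num,
          Real.exp_nat_mul, Real.exp_log (by positivity)]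
  rw [← Finset.sum_mul] at h5
  push_cast
  have h6 : s ^ j * Real.sqrt q ^ j = 1 := by
    rw [← mul_pow, hs, inv_mul_cancel₀ hsq.ne', one_pow]
  calc ∑ e ∈ Mon F j, (kk e : ℝ) = (∑ e ∈ Mon F j, (kk e : ℝ)) * s ^ j * Real.sqrt q ^ j := by
        rw [mul_assoc, h6, mul_one]
    _ ≤ _ := mul_le_mul_of_nonneg_right h5 (by positivity)

end Pool.RN
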